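import Pool.Agent.LibSumset.Folner

set_option autoImplicit false

open Filter Topology

namespace Pool.Agent.Results.MP_fc7b8c_co.SharpnessFails

/-- A Folner sequence of finite subsets of `G`: the proportion of `Φ N ∩ (g + Φ N)` in `Φ N`
tends to `1` for every `g`. -/
def IsFolner {G : Type} [AddCommGroup G] (Φ : ℕ → Finset G) : Prop :=
  ∀ g : G, Tendsto (fun N => (((Φ N : Set G) ∩ (fun x => g + x) '' (Φ N : Set G)).ncard : ℝ) /
    ((Φ N).card : ℝ)) atTop (𝓝 1)

/-- The upper density of `A` along `Φ`. -/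
noncomputable def upperDensity {G : Type} (Φ : ℕ → Finset G) (A : Set G) : ℝ :=
  limsup (fun N => ((A ∩ (Φ N : Set G)).ncard : ℝ) / ((Φ N).card : ℝ)) atTop

/-- The doubling ratio of `Φ`: the lower limit of the proportion of `x` in `Φ N` with `x + x`
in `Φ N`. -/
noncomputable def doublingRatio {G : Type} [AddCommGroup G] (Φ : ℕ → Finset G) : ℝ :=
  liminf (fun N => (({x : G | x + x ∈ Φ N} ∩ (Φ N : Set G)).ncard : ℝ) / ((Φ N).card : ℝ)) atTop

/-- The doubling homomorphism `g ↦ g + g`. -/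
def doubling (G : Type) [AddCommGroup G] : G →+ G where
  toFun g := g + g
  map_zero' := add_zero 0
  map_add' x y := by abel

open Pool.Agent.LibSumset

open Classical in
/-- the elements of `Φ` leaving `Φ` when translated by `-g` -/
noncomputable def XX (Φ : Finset G7) (g : G7) : Finset G7 := Φ.filter fun v => v - g ∉ Φ

theorem tendsto_XX {Φ : ℕ → Finset G7} (hΦ : IsFolner Φ) (g : G7) :
    Tendsto (fun N => ((XX (Φ N) g).card : ℝ) / ((Φ N).card : ℝ)) atTop (𝓝 0) := by
  classical
  have h1 := hΦ g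
  have h2 := (tendsto_const_nhds (x := (1 : ℝ)) (f := (atTop : Filter ℕ))).sub h1
  rw [sub_self] at h2
  refine h2.congr' ?_
  have h3 : ∀ᶠ N in atTop, (Φ N).card ≠ 0 := by
    have := h1.eventually (lt_mem_nhds (show (0 : ℝ) < 1 by norm_num))
    filter_upwards [this] with N hN h0
    rw [h0] at hN
    simp at hN
  filter_upwards [h3] with N hN
  have hN' : ((Φ N).card : ℝ) ≠ 0 := by exact_mod_cast hN
  have h4 : ((Φ N : Set G7) ∩ (fun x => g + x) '' (Φ N : Set G7)).ncard =
      ((Φ N).filter fun v => v - g ∈ Φ N).card := by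
    rw [← Set.ncard_coe_finset]
    congr 1
    ext v
    simp only [Set.mem_inter_iff, Finset.mem_coe, Set.mem_image, Finset.coe_filter,
      Set.mem_ofPred_eq]
    constructor
    · rintro ⟨h, x, hx, rfl⟩
      exact ⟨h, by rw [add_sub_cancel_left]; exact hx⟩
    · rintro ⟨h, h'⟩
      exact ⟨h, v - g, h', by abel⟩
  have h5 : ((Φ N).filter fun v => v - g ∈ Φ N).card + (XX (Φ N) g).card = (Φ N).card :=
    Finset.card_filter_add_card_filter_not _
  rw [h4]
  have h6 : (((Φ N).filter fun v => v - g ∈ Φ N).card : ℝ) + (XX (Φ N) g).card = (Φ N).card := by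
    exact_mod_cast h5
  field_simp
  linarith

theorem inv_P3 {Φ : ℕ → Finset G7} (hΦ : IsFolner Φ) (g : G7) {U : Filter ℕ} (hU : U ≤ atTop) :
    Tendsto (fun N => (((P3 (Φ N)).filter fun v => v - g ∉ P3 (Φ N)).card : ℝ) / (Φ N).card)
      U (𝓝 0) := by
  classical
  have h1 := ((tendsto_XX hΦ g).add (tendsto_XX hΦ (dbl g))).add (tendsto_XX hΦ (dbl (dbl g)))
  rw [add_zero, add_zero] at h1
  have h2 := h1.mono_left hU
  refine squeeze_zero (fun N => by positivity) (fun N => ?_) h2
  rw [← add_div, ← add_div]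
  refine div_le_div_of_nonneg_right ?_ (Nat.cast_nonneg _)
  have h3 : ((P3 (Φ N)).filter fun v => v - g ∉ P3 (Φ N)) ⊆
      (XX (Φ N) g ∪ (XX (Φ N) (dbl g)).image dbl.symm) ∪
        (XX (Φ N) (dbl (dbl g))).image (fun w => dbl.symm (dbl.symm w)) := by
    intro v hv
    rw [Finset.mem_filter] at hv
    obtain ⟨hv1, hv2⟩ := hv
    rw [P3, Finset.mem_filter] at hv1
    rw [Finset.mem_union, Finset.mem_union]
    by_cases k0 : v - g ∈ Φ N
    · by_cases k1 : dbl (v - g) ∈ Φ N
      · right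
        rw [Finset.mem_image]
        refine ⟨dbl (dbl v), ?_, by simp⟩
        rw [XX, Finset.mem_filter]
        refine ⟨hv1.2.2, fun h => hv2 ?_⟩
        rw [P3, Finset.mem_filter]
        refine ⟨k0, k1, ?_⟩
        rw [map_sub, map_sub]; exact h
      · left; right
        rw [Finset.mem_image]
        refine ⟨dbl v, ?_, by simp⟩
        rw [XX, Finset.mem_filter]
        exact ⟨hv1.2.1, by rwa [← map_sub]⟩
    · left; left
      rw [XX, Finset.mem_filter]
      exact ⟨hv1.1, k0⟩
  have h4 := Finset.card_le_card h3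
  have h5 := (Finset.card_union_le (XX (Φ N) g ∪ (XX (Φ N) (dbl g)).image dbl.symm)
    ((XX (Φ N) (dbl (dbl g))).image (fun w => dbl.symm (dbl.symm w))))
  have h6 := Finset.card_union_le (XX (Φ N) g) ((XX (Φ N) (dbl g)).image dbl.symm)
  have h7 : ((XX (Φ N) (dbl g)).image dbl.symm).card ≤ (XX (Φ N) (dbl g)).card :=
    Finset.card_image_le
  have h8 : ((XX (Φ N) (dbl (dbl g))).image (fun w => dbl.symm (dbl.symm w))).card ≤
    (XX (Φ N) (dbl (dbl g))).card := Finset.card_image_le
  have h9 : ((P3 (Φ N)).filter fun v => v - g ∉ P3 (Φ N)).card ≤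
      (XX (Φ N) g).card + (XX (Φ N) (dbl g)).card + (XX (Φ N) (dbl (dbl g))).card := by omega
  exact_mod_cast h9

theorem inv_R2 {Φ : ℕ → Finset G7} (hΦ : IsFolner Φ) (g : G7) {U : Filter ℕ} (hU : U ≤ atTop) :
    Tendsto (fun N => (((R2 (Φ N)).filter fun v => v - g ∉ R2 (Φ N)).card : ℝ) / (Φ N).card)
      U (𝓝 0) := by
  classical
  have h1 := ((tendsto_XX hΦ g).add (tendsto_XX hΦ (dbl g))).add
    (tendsto_XX hΦ (-(dbl (dbl g))))
  rw [add_zero, add_zero] at h1
  have h2 := h1.mono_left hU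
  refine squeeze_zero (fun N => by positivity) (fun N => ?_) h2
  rw [← add_div, ← add_div]
  refine div_le_div_of_nonneg_right ?_ (Nat.cast_nonneg _)
  have h3 : ((R2 (Φ N)).filter fun v => v - g ∉ R2 (Φ N)) ⊆
      (XX (Φ N) g ∪ (XX (Φ N) (dbl g)).image dbl.symm) ∪
        (XX (Φ N) (-(dbl (dbl g)))).image (fun w => dbl.symm (dbl.symm w) + g) := by
    intro v hv
    rw [Finset.mem_filter] at hv
    obtain ⟨hv1, hv2⟩ := hv
    rw [R2, Finset.mem_filter] at hv1
    rw [Finset.mem_union, Finset.mem_union]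
    by_cases k0 : v - g ∈ Φ N
    · by_cases k1 : dbl (v - g) ∈ Φ N
      · right
        have k2 : dbl (dbl (v - g)) ∈ Φ N := by
          by_contra hcon
          apply hv2
          rw [R2, Finset.mem_filter]
          exact ⟨k0, k1, hcon⟩
        rw [Finset.mem_image]
        refine ⟨dbl (dbl (v - g)), ?_, by simp⟩
        rw [XX, Finset.mem_filter]
        refine ⟨k2, ?_⟩
        rw [map_sub, map_sub, sub_neg_eq_add, sub_add_cancel]
        exact hv1.2.2
      · left; right
        rw [Finset.mem_image]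
        refine ⟨dbl v, ?_, by simp⟩
        rw [XX, Finset.mem_filter]
        exact ⟨hv1.2.1, by rwa [← map_sub]⟩
    · left; left
      rw [XX, Finset.mem_filter]
      exact ⟨hv1.1, k0⟩
  have h4 := Finset.card_le_card h3
  have h5 := (Finset.card_union_le (XX (Φ N) g ∪ (XX (Φ N) (dbl g)).image dbl.symm)
    ((XX (Φ N) (-(dbl (dbl g)))).image (fun w => dbl.symm (dbl.symm w) + g)))
  have h6 := Finset.card_union_le (XX (Φ N) g) ((XX (Φ N) (dbl g)).image dbl.symm)
  have h7 : ((XX (Φ N) (dbl g)).image dbl.symm).card ≤ (XX (Φ N) (dbl g)).card :=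
    Finset.card_image_le
  have h8 : ((XX (Φ N) (-(dbl (dbl g)))).image (fun w => dbl.symm (dbl.symm w) + g)).card ≤
    (XX (Φ N) (-(dbl (dbl g)))).card := Finset.card_image_le
  have h9 : ((R2 (Φ N)).filter fun v => v - g ∉ R2 (Φ N)).card ≤
      (XX (Φ N) g).card + (XX (Φ N) (dbl g)).card + (XX (Φ N) (-(dbl (dbl g)))).card := by omega
  exact_mod_cast h9

theorem ratio_le_one {A B : Set G7} (h : A ⊆ B) (hB : B.Finite) :
    ((A.ncard : ℝ) / B.ncard) ≤ 1 := by
  refine div_le_one_of_le₀ ?_ (Nat.cast_nonneg _)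
  exact_mod_cast Set.ncard_le_ncard h hB

/-- The main density statement on the direct sum of copies of `Z/7`. -/
theorem main (Φ : ℕ → Finset G7) (hΦ : IsFolner Φ) (A : Set G7)
    (hA : 1 - 2 / 3 * doublingRatio Φ < upperDensity Φ A) :
    ∃ B : Set G7, B.Infinite ∧ ∀ b₁ ∈ B, ∀ b₂ ∈ B, b₁ + b₂ ∈ A := by
  classical
  by_contra hno
  have hE : NoB Aᶜ := by
    intro h
    apply hno
    obtain ⟨B, hB, h2⟩ := h
    exact ⟨B, hB, fun x hx y hy => by simpa using h2 x hx y hy⟩
  set E : Set G7 := Aᶜ with hEdef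
  set α := doublingRatio Φ with hα
  obtain ⟨c, hc1, hc2⟩ := exists_between hA
  have hcob : IsCoboundedUnder (· ≤ ·) atTop
      (fun N => ((A ∩ (Φ N : Set G7)).ncard : ℝ) / ((Φ N).card : ℝ)) :=
    IsBoundedUnder.isCoboundedUnder_le ⟨0, by
      rw [eventually_map]
      exact Eventually.of_forall fun N => by positivity⟩
  have hfreq : ∃ᶠ N in atTop, c < ((A ∩ (Φ N : Set G7)).ncard : ℝ) / ((Φ N).card : ℝ) :=
    frequently_lt_of_lt_limsup hcob hc2
  rw [frequently_iff_neBot] at hfreq
  obtain ⟨U, hU⟩ := Ultrafilter.exists_le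
    (atTop ⊓ 𝓟 {N | c < ((A ∩ (Φ N : Set G7)).ncard : ℝ) / ((Φ N).card : ℝ)})
  have hU1 : (U : Filter ℕ) ≤ atTop := hU.trans inf_le_left
  have hU2 : ∀ᶠ N in (U : Filter ℕ), c < ((A ∩ (Φ N : Set G7)).ncard : ℝ) / ((Φ N).card : ℝ) := by
    have := hU.trans inf_le_right
    rw [le_principal_iff] at this
    exact this
  have hne : ∀ᶠ N in (U : Filter ℕ), (Φ N).card ≠ 0 := by
    have := hU1 ((hΦ 0).eventually (lt_mem_nhds (show (0 : ℝ) < 1 by norm_num)))
    filter_upwards [this] with N hN h0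
    rw [h0] at hN
    simp at hN
  obtain ⟨l3, hl3a, hl3b, hl3c⟩ := exists_functional U Φ (fun N => P3 (Φ N))
    (fun N => Finset.filter_subset _ _) (fun g => by convert inv_P3 hΦ g hU1)
  obtain ⟨lR, hlRa, hlRb, hlRc⟩ := exists_functional U Φ (fun N => R2 (Φ N))
    (fun N => Finset.filter_subset _ _) (fun g => by convert inv_R2 hΦ g hU1)
  have k3 := key3_fun hE hl3a hl3b
  have k2 := key2_fun hE hlRa hlRb
  have hR0 : 0 ≤ lR 1 := hlRa 1 fun x => by simp
  -- upper bound
  have hupper : l3 (ind (SS E 0) + ind (SS E 1) + ind (SS E 2)) +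
      3 * lR (ind (SS E 0) + ind (SS E 1)) ≤ 3 * (1 - c) := by
    have h1 := (hl3c (ind (SS E 0) + ind (SS E 1) + ind (SS E 2))).add
      ((hlRc (ind (SS E 0) + ind (SS E 1))).const_mul 3)
    refine le_of_tendsto h1 ?_
    filter_upwards [hU2, hne] with N hN hN0
    have hN0' : (0 : ℝ) < (Φ N).card := by exact_mod_cast Nat.pos_of_ne_zero hN0
    have h2 := count (Φ N) E
    have h3 : (E ∩ (Φ N : Set G7)).ncard + (A ∩ (Φ N : Set G7)).ncard = (Φ N).card := by
      rw [← Set.ncard_union_eq, hEdef, ← Set.union_inter_distrib_right, Set.compl_union_self,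
        Set.univ_inter, Set.ncard_coe_finset]
      · rw [Set.disjoint_left]
        rintro x ⟨h1, -⟩ ⟨h2, -⟩
        exact h1 h2
    have h3' : ((E ∩ (Φ N : Set G7)).ncard : ℝ) + (A ∩ (Φ N : Set G7)).ncard =
        (Φ N).card := by exact_mod_cast h3
    rw [lt_div_iff₀ hN0'] at hN
    rw [← mul_div_assoc, ← add_div, div_le_iff₀ hN0']
    linarith
  -- lower bound
  have hlower : α ≤ l3 1 + lR 1 := by
    have h1 := (hl3c 1).add (hlRc 1)
    refine le_of_forall_lt fun b hb => ?_
    obtain ⟨b', hb1, hb2⟩ := exists_between hb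
    refine lt_of_lt_of_le hb1 ?_
    have hbd : IsBoundedUnder (· ≥ ·) atTop
        (fun N => (({x : G7 | x + x ∈ Φ N} ∩ (Φ N : Set G7)).ncard : ℝ) / ((Φ N).card : ℝ)) :=
      ⟨0, by rw [eventually_map]; exact Eventually.of_forall fun N => by positivity⟩
    have h2 := eventually_lt_of_lt_liminf (f := atTop) hb2 hbd
    refine ge_of_tendsto h1 ?_
    filter_upwards [hU1 h2] with N hN
    refine hN.le.trans (le_of_eq ?_)
    rw [← add_div]
    congr 1
    simp only [Bd.coe_one_apply, Finset.sum_const, nsmul_eq_mul, mul_one]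
    have e : ({x : G7 | x + x ∈ Φ N} ∩ (Φ N : Set G7)).ncard = (P3 (Φ N)).card + (R2 (Φ N)).card := by
      rw [← Finset.card_union_of_disjoint, ← Set.ncard_coe_finset]
      · congr 1
        ext v
        rw [Finset.mem_coe, Finset.mem_union, P3, R2, Finset.mem_filter, Finset.mem_filter]
        simp only [Set.mem_inter_iff, Set.mem_ofPred_eq, Finset.mem_coe, dbl_apply]
        tauto
      · rw [Finset.disjoint_left]
        intro v h1 h2
        rw [P3, Finset.mem_filter] at h1
        rw [R2, Finset.mem_filter] at h2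
        exact h2.2.2 h1.2.2
    rw [e]; push_cast; ring
  linarith

/-- There is an infinite countable abelian group `G` with `[G : 2G]` and the kernel of doubling
finite such that, along every Folner sequence with positive doubling ratio `α`, every set of
upper density `1 - α / (l + r)` contains `B + B` for some infinite `B`; in fact upper density
above `1 - 2 * α / 3` suffices there (and `l = r = 1`). -/
theorem result : ∃ (G : Type) (_ : AddCommGroup G), Nonempty (G ≃+ (ℕ →₀ ZMod 7)) ∧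
    Countable G ∧ Infinite G ∧
    (doubling G).range.FiniteIndex ∧ Finite (doubling G).ker ∧
    (doubling G).range.index = 1 ∧ Nat.card (doubling G).ker = 1 ∧
    (∀ Φ : ℕ → Finset G, IsFolner Φ → ∀ A : Set G,
      1 - 2 / 3 * doublingRatio Φ < upperDensity Φ A →
      ∃ B : Set G, B.Infinite ∧ ∀ b₁ ∈ B, ∀ b₂ ∈ B, b₁ + b₂ ∈ A) ∧
    (∀ Φ : ℕ → Finset G, IsFolner Φ → 0 < doublingRatio Φ → ∀ A : Set G,
      upperDensity Φ A = 1 - doublingRatio Φ /
        ((doubling G).range.index + Nat.card (doubling G).ker) →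
      ∃ B : Set G, B.Infinite ∧ ∀ b₁ ∈ B, ∀ b₂ ∈ B, b₁ + b₂ ∈ A) := by
  have hrange : (doubling G7).range = ⊤ := by
    rw [AddMonoidHom.range_eq_top]
    exact dbl.surjective
  have hker : (doubling G7).ker = ⊥ := by
    rw [AddMonoidHom.ker_eq_bot_iff]
    exact dbl.injective
  have hidx : (doubling G7).range.index = 1 := by rw [hrange]; exact AddSubgroup.index_top
  have hcard : Nat.card (doubling G7).ker = 1 := by rw [hker]; exact AddSubgroup.card_bot
  refine ⟨G7, inferInstance, ⟨AddEquiv.refl _⟩, inferInstance, inferInstance, ?_, ?_, hidx, hcard,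
    fun Φ hΦ A hA => main Φ hΦ A hA, fun Φ hΦ hpos A hA => ?_⟩
  · rw [hrange]; infer_instance
  · rw [hker]; infer_instance
  · refine main Φ hΦ A ?_
    rw [hA, hidx, hcard]
    push_cast
    have : doublingRatio Φ / (1 + 1) < 2 / 3 * doublingRatio Φ := by
      rw [div_lt_iff₀ (by norm_num)]
      linarith
    linarith

end Pool.Agent.Results.MP_fc7b8c_co.SharpnessFails
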